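import Pool.Agent.Y510.SL.Example

/-!
# Invariants of finite type vanishing at all 2-strand string links with free group

For 2-strand string links there is a nonzero rational invariant of order `≤ 8` which vanishes at all
string links with free group. So the answer to Q1 is yes for `k = 2`, for every order `n ≥ 8`.

The definitions are in `Pool.Agent.H838R2.SL.Defs` and `Pool.Agent.H835R2.Knot.Defs`.

The proof. The labelings of a diagram `D` of a 2-strand string link in the group `U` of unitriangular
matrices of size ten are determined by the labels of the strands at the top, so they give an action
`A` of the string link on `U × U`. Let `J (a, b) = (b⁻¹ a⁻¹ b, b⁻¹)`. If the group of the string link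
is free, then `A ∘ J ∘ A = J`. Indeed the group, being free of rank two, embeds in `SL₂` of a
field; there a pair of matrices is determined up to conjugation by its traces, the pairs of the
meridians at the top and at the bottom have the same traces, and every pair of matrices of
determinant one is conjugate to the pair of the inverses. This gives a
homomorphism of the group onto itself which reverses the string link, up to a conjugation, and this
conjugation is then determined in the lower central quotients of the free group. So an entry of
`A (J (A s)) J(s)⁻¹` for fixed `s` is an invariant which vanishes at the string links with free group.
It is of order `≤ 8`, since it comes from matrices of size ten, and it is not zero at a string link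
with nine crossings.
-/

set_option autoImplicit false

namespace Pool.Agent.Results.MP_8b9055_gt.NonzeroN

open Pool.Agent.H838R2.SL

/-- **Theorem.** `Nₙ ≠ 0` for 2-strand string links and every `n ≥ 8`. -/
theorem result : ∀ n, 8 ≤ n → N 2 n ≠ ⊥ := Pool.Agent.Y510.SL.nonzero

end Pool.Agent.Results.MP_8b9055_gt.NonzeroN
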